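import Pool.Agent.Y658.CE.Geom

/-!
# A circle and a non-circular ellipse with a common focus: at most ten stationary points

Question Q2 of problem MP_4e5648_mp, answered in full: the squared distance between the points of a
circle and the points of a non-circular ellipse of three-dimensional Euclidean space, the centre of
the circle being a focus of the ellipse, has at most ten stationary points.
-/

set_option autoImplicit false

namespace Pool.Agent.Results.MP_4e5648_mp.CircleEllipse

/-- Euclidean space of dimension three -/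
abbrev E3 : Type := EuclideanSpace ℝ (Fin 3)

/-- The point of parameter `s` (eccentric anomaly) of the ellipse with focus `F`, semimajor axis
`a`, eccentricity `e` and centre `F + (a e) u`, in the plane through `F` spanned by the orthonormal
vectors `u` and `w`.  For `e = 0` this is the circle of centre `F` and radius `a` of that plane. -/
noncomputable def ell (F u w : E3) (a e s : ℝ) : E3 :=
  F + (a * (e + Real.cos s)) • u + (a * Real.sqrt (1 - e ^ 2) * Real.sin s) • w

/-- The stationary points of the squared distance on the product of two such ellipses: the pairs of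
points at which both partial derivatives of the squared distance, expressed with the two
parametrisations, vanish. -/
def stationary (F u₁ w₁ u₂ w₂ : E3) (a₁ e₁ a₂ e₂ : ℝ) : Set (E3 × E3) :=
  {x | ∃ s t : ℝ, x = (ell F u₁ w₁ a₁ e₁ s, ell F u₂ w₂ a₂ e₂ t) ∧
    deriv (fun s' : ℝ => ‖ell F u₁ w₁ a₁ e₁ s' - ell F u₂ w₂ a₂ e₂ t‖ ^ 2) s = 0 ∧
    deriv (fun t' : ℝ => ‖ell F u₁ w₁ a₁ e₁ s - ell F u₂ w₂ a₂ e₂ t'‖ ^ 2) t = 0}

/-- **Question Q2 of MP_4e5648_mp.**  For two ellipses of three-dimensional Euclidean space with a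
common focus `F`, exactly one of which is a circle, the squared distance of a point of the first
and a point of the second has finitely many stationary points, and at most ten. -/
theorem result (F u₁ w₁ u₂ w₂ : E3) (a₁ e₁ a₂ e₂ : ℝ) (ha₁ : 0 < a₁) (ha₂ : 0 < a₂)
    (hu₁ : ‖u₁‖ = 1) (hw₁ : ‖w₁‖ = 1) (huw₁ : inner ℝ u₁ w₁ = 0)
    (hu₂ : ‖u₂‖ = 1) (hw₂ : ‖w₂‖ = 1) (huw₂ : inner ℝ u₂ w₂ = 0)
    (he : (e₁ = 0 ∧ 0 < e₂ ∧ e₂ < 1) ∨ (0 < e₁ ∧ e₁ < 1 ∧ e₂ = 0)) :
    (stationary F u₁ w₁ u₂ w₂ a₁ e₁ a₂ e₂).Finite ∧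
      (stationary F u₁ w₁ u₂ w₂ a₁ e₁ a₂ e₂).ncard ≤ 10 :=
  Pool.Agent.Y658.CE.Geom.main F u₁ w₁ u₂ w₂ a₁ e₁ a₂ e₂ ha₁ ha₂ hu₁ hw₁ huw₁ hu₂ hw₂ huw₂ he

end Pool.Agent.Results.MP_4e5648_mp.CircleEllipse
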